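import Pool.Agent.helper96.DP.SpecE
import Pool.Agent.helper96.DP.Basic

/-!
# Module AM of project dp: monotonicity of the free events
-/

namespace DP

open MeasureTheory

theorem AM_conn {c : V → Bool} {k : Bool} {x u v : V} {m m' n' n : ℕ} (h1 : m ≤ m') (h2 : m' ≤ n')
    (h3 : n' ≤ n) (hu : u ∈ bd x m) (hv : v ∈ bd x n) (h : Conn c k (ann x m n) u v) :
    ∃ p ∈ bd x m', ∃ q ∈ bd x n', Conn c k (ann x m' n') p q ∧ Conn c k (ann x m n) u p ∧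
      Conn c k (ann x m n) q v := by
  have hu' : sd x u = m := hu
  have hv' : sd x v = n := hv
  obtain ⟨p, q, hp, hq, h4, h5, h6⟩ := Con.cross (x := x) (m := m') (n := n') h (by omega) h2 (by omega)
  refine ⟨p, hp, q, hq, h4.mono ?_, h5, h6⟩
  rintro z ⟨⟨-, hz⟩, hz'⟩
  exact ⟨hz', hz⟩

theorem AM_sub {x : V} {m m' n' n : ℕ} (h1 : m ≤ m') (h3 : n' ≤ n) :
    ann x m' n' ⊆ ann x m n := fun _ hz => ⟨h1.trans hz.1, hz.2.trans h3⟩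

theorem AM_arm {c : V → Bool} {k : Bool} {x : V} {m m' n' n : ℕ} (h1 : m ≤ m') (h2 : m' ≤ n')
    (h3 : n' ≤ n) (h : arm c k x m n) : arm c k x m' n' := by
  obtain ⟨u, hu, v, hv, h⟩ := h
  obtain ⟨p, hp, q, hq, h4, -, -⟩ := AM_conn h1 h2 h3 hu hv h
  exact ⟨p, hp, q, hq, h4⟩

theorem AM_four {c : V → Bool} {x : V} {m m' n' n : ℕ} (h1 : m ≤ m') (h2 : m' ≤ n')
    (h3 : n' ≤ n) (h : four c x m n) : four c x m' n' := by
  obtain ⟨u, hu, v, hv, ⟨u', hu', hc⟩, ⟨v', hv', hd⟩, hn⟩ := h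
  obtain ⟨p, hp, q, hq, h4, h5, h6⟩ := AM_conn h1 h2 h3 hu hu' hc
  obtain ⟨r, hr, s, hs, h7, h8, h9⟩ := AM_conn h1 h2 h3 hv hv' hd
  refine ⟨p, hp, r, hr, ⟨q, hq, h4⟩, ⟨s, hs, h7⟩, fun h10 => hn ?_⟩
  exact (h5.trans (h10.mono (AM_sub h1 h3))).trans h8.symm

theorem AM : AM_stmt := by
  intro c j x m m' n' n hj h1 h2 h3 h
  unfold ar at h ⊢
  split_ifs at h ⊢ with hj4
  · exact AM_four h1 h2 h3 h
  · exact ⟨AM_arm h1 h2 h3 h.1, AM_arm h1 h2 h3 h.2⟩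

end DP
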