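import Pool.Agent.helper96.DP.SpecE
import Pool.Agent.helper96.DP.Basic

/-!
# Module MI of project dp: from marked arms to standard arms (deterministic inclusion)
-/

namespace DP

open MeasureTheory

theorem MI_zpt (x : V) (r t : ℕ) : sd x (zpt x r t) = r := by
  unfold zpt sd
  split_ifs <;> simp

/-- A horizontal segment. -/
theorem MI_seg (g : V) (σ : ℤ) (hσ : σ = 1 ∨ σ = -1) (m : ℕ) :
    Con {v | ∃ t : ℕ, t ≤ m ∧ v = (g.1 + σ * t, g.2)} g (g.1 + σ * m, g.2) := by
  have key : ∀ t : ℕ, t ≤ m →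
      Con {v | ∃ t : ℕ, t ≤ m ∧ v = (g.1 + σ * t, g.2)} g (g.1 + σ * t, g.2) := by
    intro t
    induction t with
    | zero =>
      intro _
      simpa using Con.refl (W := {v | ∃ t : ℕ, t ≤ m ∧ v = (g.1 + σ * t, g.2)}) (u := g)
        ⟨0, Nat.zero_le _, by simp⟩
    | succ t ih =>
      intro ht
      refine (ih (by omega)).tail ?_ ⟨t + 1, ht, rfl⟩
      rcases hσ with rfl | rfl
      · have := adj_right (g.1 + 1 * (t : ℤ), g.2)
        simpa [add_assoc] using this
      · have h3 := adj_left (g.1 + (-1) * (t : ℤ), g.2)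
        have h2 : (g.1 + (-1) * (t : ℤ), g.2).1 - 1 = g.1 + (-1) * ((t + 1 : ℕ) : ℤ) := by
          push_cast; ring
        rw [h2] at h3
        exact h3
  exact key m le_rfl

theorem MI_arm (hCH : CH2_stmt) (c : V → Bool) (j : ℕ) (s : Bool) (x : V) (n a A t0 : ℕ) (D : Dat)
    (L : List V) (k : Bool) (y0 p u : V) (R : Set V) (ha : 1 ≤ a) (han : 256 * a ≤ n)
    (hA : 16 * A ≤ n) (hn : n % 2 = 0)
    (hN : ∀ v ∈ D.N k, if s = true then sd x v ≤ n / 2 else 2 * n ≤ sd x v)
    (hy0 : y0 ∈ bd x n) (hch : Chn a L) (hhead : L.head? = some y0)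
    (hlast : ∃ (g : V) (r : ℕ), L.getLast? = some g ∧ sd (zpt x r t0) g ≤ a ∧
      (if s = true then nx s n + a ≤ r else n / 4 ≤ r ∧ r + a ≤ nx s n))
    (h1 : ∀ v ∈ reg a L, v ∈ HS s x n → sd y0 v ≤ A)
    (h2 : ∀ v ∈ reg a L, v ∈ bd x (nx s n) → sd (zpt x (nx s n) t0) v ≤ nx s n / 64)
    (h3 : ∀ t < j, kol t ≠ k → ∀ v ∈ reg a L, nx s n / 8 < sd (zpt x (nx s n) t) v)
    (hF : Full c k a L) (hp : if s = true then sd x p ≤ n / 2 else 2 * n ≤ sd x p)
    (hu : sd y0 u ≤ a) (hR : R ⊆ HS s x n \ D.N k) (hc : Conn c k R p u) :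
    ∃ u' ∈ bd x (nx s n), sd (zpt x (nx s n) t0) u' ≤ nx s n / 64 ∧
      Conn c k (HS s x (nx s n) \ (D.N k ∪ opp j (zpt x (nx s n)) (nx s n / 8) k)) p u' := by
  have hy0' : sd x y0 = n := hy0
  have hne : L ≠ [] := by
    rintro rfl
    simp at hhead
  obtain ⟨U, hU1, hU2, hU3, hU4⟩ := hCH c k a L hF hch hne ha
  obtain ⟨g, r, hg, hgr, hr⟩ := hlast
  have hyL : y0 ∈ L := List.mem_of_head? hhead
  have hgL : g ∈ L := List.mem_of_getLast? hg
  -- hook the arm
  have hfar : 3 * a ≤ sd y0 p := by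
    have e1 := sd_triangle x p y0
    have e2 := sd_triangle x y0 p
    have e3 := sd_comm p y0
    cases s <;> simp at hp <;> omega
  obtain ⟨z, hzU, hz⟩ := hU3 y0 hyL _ u p hc.symm hu hfar
  -- the far point of the chain
  have hz' : ∃ z' ∈ U, if s = true then nx s n ≤ sd x z' else sd x z' ≤ nx s n := by
    have e0 := MI_zpt x r t0
    have e1 := sd_triangle x (zpt x r t0) g
    have e2 := sd_triangle x g (zpt x r t0)
    have e3 := sd_comm g (zpt x r t0)
    cases s with
    | true =>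
      simp only [if_true] at hr ⊢
      have e4 : nx true n ≤ sd x g := by omega
      obtain ⟨⟨t₁, ht₁, hU₁⟩, ⟨t₂, ht₂, hU₂⟩, ⟨t₃, ht₃, hU₃⟩, ⟨t₄, ht₄, hU₄⟩⟩ := hU4 g hgL
      have e5 : (nx true n : ℤ) ≤ g.1 - x.1 ∨ (nx true n : ℤ) ≤ x.1 - g.1 ∨
          (nx true n : ℤ) ≤ g.2 - x.2 ∨ (nx true n : ℤ) ≤ x.2 - g.2 := by
        unfold sd at e4
        omega
      rcases e5 with e5 | e5 | e5 | e5
      · exact ⟨_, hU₁, by unfold sd; simp only; omega⟩
      · exact ⟨_, hU₂, by unfold sd; simp only; omega⟩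
      · exact ⟨_, hU₃, by unfold sd; simp only; omega⟩
      · exact ⟨_, hU₄, by unfold sd; simp only; omega⟩
    | false =>
      simp only [Bool.false_eq_true, if_false] at hr ⊢
      have e4 : sd x g ≤ nx false n := by omega
      have e6 : nx false n = n / 2 := by simp [nx]
      have e7 := sd_le_iff.1 e4
      rcases le_total x.1 g.1 with e5 | e5
      · obtain ⟨w, hwU, hw⟩ := hU3 g hgL _ g _ (MI_seg g (-1) (Or.inr rfl) (3 * a)) (by simp)
          (by unfold sd; simp only; omega)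
        obtain ⟨t, ht, rfl⟩ := hw.mem_right
        exact ⟨_, hwU, sd_le_iff.2 (by simp only; omega)⟩
      · obtain ⟨w, hwU, hw⟩ := hU3 g hgL _ g _ (MI_seg g 1 (Or.inl rfl) (3 * a)) (by simp)
          (by unfold sd; simp only; omega)
        obtain ⟨t, ht, rfl⟩ := hw.mem_right
        exact ⟨_, hwU, sd_le_iff.2 (by simp only; omega)⟩
  obtain ⟨z', hz'U, hz'⟩ := hz'
  -- the combined connection
  have hcon : Con ({w | w ∈ R ∧ c w = k} ∪ U) p z' :=
    Con.trans (Con.mono Set.subset_union_left (Con.trans hc hz))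
      (Con.mono Set.subset_union_right (hU2 z hzU z' hz'U))
  have hcut : ∃ w, sd x w = nx s n ∧
      Con (({w | w ∈ R ∧ c w = k} ∪ U) ∩ HS s x (nx s n)) p w := by
    cases s with
    | true =>
      simp only [if_true] at hp hz'
      have e6 : nx true n = 2 * n := by simp [nx]
      obtain ⟨w, hw1, hw2, -⟩ := Con.exit (x := x) (m := nx true n) hcon (by omega) hz'
      exact ⟨w, hw1, hw2⟩
    | false =>
      simp only [Bool.false_eq_true, if_false] at hp hz'
      have e6 : nx false n = n / 2 := by simp [nx]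
      obtain ⟨w, hw1, hw2, -⟩ := Con.enter (x := x) (m := nx false n) hcon (by omega) hz'
      exact ⟨w, hw1, hw2⟩
  obtain ⟨w, hw1, hw2⟩ := hcut
  -- points of the chain inside the half space stay close to `y0`
  have hnear : ∀ v ∈ U, v ∉ D.N k := by
    intro v hv hvN
    have e1 := hN v hvN
    have e2 := h1 v (hU1 v hv).1
    have e3 := sd_triangle x y0 v
    have e4 := sd_triangle x v y0
    have e5 := sd_comm v y0
    cases s with
    | true =>
      simp only [if_true] at e1
      have e6 := e2 (show sd x v ≤ n by omega)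
      omega
    | false =>
      simp only [Bool.false_eq_true, if_false] at e1
      have e6 := e2 (show n ≤ sd x v by omega)
      omega
  have hwU : w ∈ U := by
    rcases hw2.mem_right.1 with hw3 | hw3
    · exfalso
      have e1 := (hR hw3.1).1
      cases s with
      | true =>
        have e2 : sd x w ≤ n := e1
        have e6 : nx true n = 2 * n := by simp [nx]
        omega
      | false =>
        have e2 : n ≤ sd x w := e1
        have e6 : nx false n = n / 2 := by simp [nx]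
        omega
    · exact hw3
  refine ⟨w, hw1, h2 w (hU1 w hwU).1 hw1, hw2.mono ?_⟩
  rintro v ⟨hv, hvH⟩
  rcases hv with ⟨hvR, hvk⟩ | hvU
  · refine ⟨⟨hvH, ?_⟩, hvk⟩
    rintro (hvN | ⟨t, ht, htk, htv⟩)
    · exact (hR hvR).2 hvN
    · have e0 := MI_zpt x (nx s n) t
      have e1 := sd_triangle x (zpt x (nx s n) t) v
      have e2 := sd_triangle x v (zpt x (nx s n) t)
      have e3 := sd_comm v (zpt x (nx s n) t)
      have e4 := (hR hvR).1
      cases s with
      | true =>
        have e5 : sd x v ≤ n := e4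
        have e6 : nx true n = 2 * n := by simp [nx]
        omega
      | false =>
        have e5 : n ≤ sd x v := e4
        have e6 : nx false n = n / 2 := by simp [nx]
        omega
  · refine ⟨⟨hvH, ?_⟩, (hU1 v hvU).2⟩
    rintro (hvN | ⟨t, ht, htk, htv⟩)
    · exact hnear v hvU hvN
    · have := h3 t ht htk v (hU1 v hvU).1
      omega

theorem MI (hCH : CH2_stmt) : MI_stmt := by
  intro c j s x i h e D y π gs hj hx heh hhi he hD hy hπ0 hπ1 hg hM hFull
  have ha : 1 ≤ 2 ^ (i - h) := Nat.one_le_two_pow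
  have han : 256 * 2 ^ (i - h) ≤ 2 ^ i := by
    calc 256 * 2 ^ (i - h) = 2 ^ (8 + (i - h)) := by rw [pow_add]; norm_num
      _ ≤ 2 ^ i := Nat.pow_le_pow_right (by norm_num) (by omega)
  have hA : 16 * 2 ^ (i - e) ≤ 2 ^ i := by
    calc 16 * 2 ^ (i - e) = 2 ^ (4 + (i - e)) := by rw [pow_add]; norm_num
      _ ≤ 2 ^ i := Nat.pow_le_pow_right (by norm_num) (by omega)
  have hi : 2 ^ i = 2 * 2 ^ (i - 1) := by
    rw [← pow_succ']; congr 1; omega
  have hi1 : 2 ^ (i + 1) = 2 * 2 ^ i := by rw [pow_succ']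
  have hn2 : 2 ^ i % 2 = 0 := by omega
  -- the permutation on both parity classes
  have hπlt : ∀ l < j, π l < j ∧ kol (π l) = kol l := by
    intro l hl
    rcases Nat.mod_two_eq_zero_or_one l with h0 | h0
    · rcases hπ0 with h4 | h4 <;> rw [h4 l hl h0] <;> unfold kol <;> simp <;>
        rcases hj with rfl | rfl <;> omega
    · rcases hπ1 with h4 | h4 <;> rw [h4 l hl h0] <;> unfold kol <;> simp <;>
        rcases hj with rfl | rfl <;> omega
  have hπsurj : ∀ t < j, ∃ l < j, l % 2 = t % 2 ∧ π l = t := by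
    intro t ht
    rcases Nat.mod_two_eq_zero_or_one t with h0 | h0
    · rcases hπ0 with h4 | h4
      · exact ⟨t, ht, rfl, h4 t ht h0⟩
      · refine ⟨(t + 2) % j, by rcases hj with rfl | rfl <;> omega,
          by rcases hj with rfl | rfl <;> omega, ?_⟩
        rw [h4 _ (by rcases hj with rfl | rfl <;> omega)
          (by rcases hj with rfl | rfl <;> omega)]
        rcases hj with rfl | rfl <;> omega
    · rcases hπ1 with h4 | h4
      · exact ⟨t, ht, rfl, h4 t ht h0⟩
      · refine ⟨(t + 2) % j, by rcases hj with rfl | rfl <;> omega,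
          by rcases hj with rfl | rfl <;> omega, ?_⟩
        rw [h4 _ (by rcases hj with rfl | rfl <;> omega)
          (by rcases hj with rfl | rfl <;> omega)]
        rcases hj with rfl | rfl <;> omega
  have hkol : ∀ a b : ℕ, kol a ≠ kol b ↔ a % 2 ≠ b % 2 := by
    intro a b
    unfold kol
    rw [ne_eq, decide_eq_decide]
    omega
  have hDN : ∀ k, ∀ v ∈ D.N k, if s = true then sd x v ≤ 2 ^ i / 2 else 2 * 2 ^ i ≤ sd x v := by
    intro k v hv
    unfold Dat.ok at hD
    cases s with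
    | true =>
      simp only [if_true] at hD ⊢
      have : sd x v ≤ 2 ^ (i - 1) := hD.2 k hv
      omega
    | false =>
      simp only [Bool.false_eq_true, if_false] at hD ⊢
      have : 2 ^ (i + 1) ≤ sd x v := hD.2.1 k hv
      omega
  have hDI : ∀ l, ∀ v ∈ D.I l, if s = true then sd x v ≤ 2 ^ i / 2 else 2 * 2 ^ i ≤ sd x v := by
    intro k v hv
    unfold Dat.ok at hD
    cases s with
    | true =>
      simp only [if_true] at hD ⊢
      have : sd x v ≤ 2 ^ (i - 1) := hD.1 k hv
      omega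
    | false =>
      simp only [Bool.false_eq_true, if_false] at hD ⊢
      have : 2 ^ (i + 1) ≤ sd x v := hD.1 k hv
      omega
  -- one arm
  have one : ∀ (k : Bool) (l m : ℕ), m < j → kol m = k → ∀ p ∈ D.I l, ∀ u ∈ bd x (2 ^ i),
      sd (y m) u ≤ 2 ^ (i - h) →
      Conn c k (HS s x (2 ^ i) \ (D.N k ∪ opp j y (2 ^ (i - e)) k)) p u →
      ∃ u' ∈ bd x (nx s (2 ^ i)), sd (zpt x (nx s (2 ^ i)) (π m)) u' ≤ nx s (2 ^ i) / 64 ∧
        Conn c k (HS s x (nx s (2 ^ i)) \
          (D.N k ∪ opp j (zpt x (nx s (2 ^ i))) (nx s (2 ^ i) / 8) k)) p u' := by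
    intro k l m hm hmk p hp u hu hyu hc
    obtain ⟨g1, g2, g3, g4, g5, g6⟩ := hg m hm
    refine MI_arm hCH c j s x (2 ^ i) (2 ^ (i - h)) (2 ^ (i - e)) (π m) D (gs m) k (y m) p u _
      ha han hA hn2 (hDN k) (hy m hm) g1 g2 g3 g4 g5 ?_ (hmk ▸ hFull m hm) (hDI l p hp) hyu
      ?_ hc
    · intro t ht htk v hv
      obtain ⟨l', hl', hpar, hπl'⟩ := hπsurj t ht
      rw [← hπl']
      refine g6 l' hl' ?_ v hv
      rw [← hmk] at htk
      have := (hkol t m).1 htk
      omega
    · rintro v ⟨hv1, hv2⟩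
      exact ⟨hv1, fun hv3 => hv2 (Or.inl hv3)⟩
  -- the permutation on one colour class
  have hπk : ∀ k, (∀ l < j, kol l = k → π l = l) ∨ (∀ l < j, kol l = k → π l = (l + 2) % j) := by
    intro k
    cases k with
    | true =>
      rcases hπ0 with h4 | h4
      · exact Or.inl fun l hl hk => h4 l hl (by simpa [kol] using hk)
      · exact Or.inr fun l hl hk => h4 l hl (by simpa [kol] using hk)
    | false =>
      rcases hπ1 with h4 | h4
      · exact Or.inl fun l hl hk => h4 l hl (by simpa [kol] using hk)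
      · exact Or.inr fun l hl hk => h4 l hl (by simpa [kol] using hk)
  have main : ∀ k, MrkC c j s x (2 ^ i) D y (2 ^ (i - h)) (2 ^ (i - e)) k →
      MrkC c j s x (nx s (2 ^ i)) D (zpt x (nx s (2 ^ i))) (nx s (2 ^ i) / 64)
        (nx s (2 ^ i) / 8) k := by
    intro k hMk
    have hsh : ∀ l < j, kol l = k → (l + 2) % j < j ∧ kol ((l + 2) % j) = k ∧
        ((l + 2) % j + 2) % j = l := by
      intro l hl hk
      refine ⟨by rcases hj with rfl | rfl <;> omega, ?_, by rcases hj with rfl | rfl <;> omega⟩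
      rw [← hk]
      unfold kol
      rw [decide_eq_decide]
      rcases hj with rfl | rfl <;> omega
    rcases hMk with hM1 | hM1
    · rcases hπk k with hp1 | hp1
      · left
        intro l hl hk
        obtain ⟨p, hp, u, hu, hyu, hc⟩ := hM1 l hl hk
        obtain ⟨u', h5, h6, h7⟩ := one k l l hl hk p hp u hu hyu hc
        rw [hp1 l hl hk] at h6
        exact ⟨p, hp, u', h5, h6, h7⟩
      · right
        intro l hl hk
        obtain ⟨p, hp, u, hu, hyu, hc⟩ := hM1 l hl hk
        obtain ⟨u', h5, h6, h7⟩ := one k l l hl hk p hp u hu hyu hc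
        rw [hp1 l hl hk] at h6
        exact ⟨p, hp, u', h5, h6, h7⟩
    · rcases hπk k with hp1 | hp1
      · right
        intro l hl hk
        obtain ⟨p, hp, u, hu, hyu, hc⟩ := hM1 l hl hk
        obtain ⟨q1, q2, q3⟩ := hsh l hl hk
        obtain ⟨u', h5, h6, h7⟩ := one k l _ q1 q2 p hp u hu hyu hc
        rw [hp1 _ q1 q2] at h6
        exact ⟨p, hp, u', h5, h6, h7⟩
      · left
        intro l hl hk
        obtain ⟨p, hp, u, hu, hyu, hc⟩ := hM1 l hl hk
        obtain ⟨q1, q2, q3⟩ := hsh l hl hk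
        obtain ⟨u', h5, h6, h7⟩ := one k l _ q1 q2 p hp u hu hyu hc
        rw [hp1 _ q1 q2, q3] at h6
        exact ⟨p, hp, u', h5, h6, h7⟩
  exact ⟨main true hM.1, main false hM.2⟩

end DP
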